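import Pool.Agent.helper66.LIN.Spec

set_option autoImplicit false

namespace LSH.Lin

open LSH

theorem LGB_pos (t : BT) : 1 ≤ t.lv := by
  induction t with
  | leaf => exact le_refl 1
  | un t ih => exact ih
  | br s t ihs iht => exact le_trans ihs (Nat.le_add_right _ _)

theorem LGB_log (a b : ℕ) (ha : 1 ≤ a) (hab : a ≤ b) :
    Nat.log 2 a + 1 ≤ Nat.log 2 (a + b) ∧ Nat.log 2 b ≤ Nat.log 2 (a + b) := by
  constructor
  · rw [← Nat.log_mul_base (by norm_num) (by omega)]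
    exact Nat.log_mono_right (by omega)
  · exact Nat.log_mono_right (by omega)

theorem LGB_arith (l L L' p a q : ℕ) (h1 : l + 1 ≤ L) (h2 : L' ≤ L) (hp : p ≤ 1 + l)
    (ha : 2 * a ≤ l ^ 2 + 5 * l + 2) (hq : q ≤ 1 + L') :
    p + 1 ≤ 1 + L ∧ 2 * (a + 1 + q) ≤ L ^ 2 + 5 * L + 2 := by
  obtain ⟨d, rfl⟩ := Nat.exists_eq_add_of_le h1
  constructor
  · omega
  · nlinarith

theorem LGB : LGB_stmt := by
  intro t
  induction t with
  | leaf => simp [BT.pl, BT.al, BT.lv]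
  | un t ih => simp [BT.pl, BT.al, BT.lv]
  | br s t ihs iht =>
    have hs := LGB_pos s
    have ht := LGB_pos t
    simp only [BT.pl, BT.al, BT.lv]
    split_ifs with h
    · obtain ⟨h1, h2⟩ := LGB_log s.lv t.lv hs h
      exact LGB_arith _ _ _ _ _ _ h1 h2 ihs.1 ihs.2 iht.1
    · obtain ⟨h1, h2⟩ := LGB_log t.lv s.lv ht (by omega)
      rw [Nat.add_comm t.lv s.lv] at h1 h2
      exact LGB_arith _ _ _ _ _ _ h1 h2 iht.1 iht.2 ihs.1

end LSH.Lin
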